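import Pool.Agent.H64.Pol5

namespace Pool.Agent.Results.MP_d2bd57_al.Uniform

open Pool.Agent.H64.Pol

theorem result (k : Type*) [Field k] (p : ℕ) (hp : 0 < p) [CharP k p]
    (G : Type*) [Group G] [Finite G] (r : ℕ) (ρ : G →* Matrix (Fin r) (Fin r) k) :
    ∃ d : ℕ, ∀ S : Set (MvPolynomial (Fin r) k),
      (Algebra.adjoin k S : Set (MvPolynomial (Fin r) k)) = inv1 ρ →
      ∀ n : ℕ, 1 ≤ n → ∀ f ∈ invN ρ n, f ^ p ^ d ∈ polAlg S n := by
  haveI : Fact p.Prime := ⟨CharP.char_prime_of_ne_zero k hp.ne'⟩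
  obtain ⟨d, hd⟩ := main p ρ
  refine ⟨d, fun S hS n hn f hf => ?_⟩
  have : polAlg (inv1 ρ) n ≤ polAlg S n := by
    refine Algebra.adjoin_le ?_
    rintro _ ⟨g, hg, β, rfl⟩
    rw [← hS] at hg
    exact coeff_pol_mem hg n β
  exact this (hd n hn f hf)

end Pool.Agent.Results.MP_d2bd57_al.Uniform
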